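import Mathlib
import Pool.Agent.H88.Fp5
import Pool.Agent.H88.FpDefs
import Pool.Agent.H88.FpDefs2

open Pool.Agent.H88.Fp

theorem Pool.Agent.Results.MP_557517_an.Yes.result (p : ℝ) (hp : 0 < p) (hp1 : p < 1)
    (M X : Type) [MetricSpace M] [ProperSpace M] [Countable M] (o : M) [AddCommGroup X]
    [Module ℝ X] (ν : X → ℝ) (δ : M → X) (h : IsFree ℝ p o ν δ) : MAP ν := by
  letI := nacg h.banach hp
  exact map_nu h hp hp1.le (fun _ => rfl)
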